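import Mathlib
import Pool.Agent.Y638.RF.MinPlus

/-!
# Shortest paths: branching programs which test real formulas

A directed graph has three layers of `n` vertices and the edge weights `A i k` (first to second
layer), `B k j` (second to third layer) and `C i j` (first to third layer), integers in
`{1, …, n + 1}`. Is some edge `i → j` longer than a path `i → k → j`? The items of the input are the
weights of all edges at `i`, for each vertex `i` of the first layer, and the matrix `B`.

A real formula (`Fml`) is built from real constants, arbitrary real functions of one item, and
arbitrary real functions of `w` words of length `c log₂ n`, where each word is an arbitrary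
function of one item, by sums, products, sign tests `pos` (with the values `0`, `1`), and gates `sym`
of any fan-in whose value is an arbitrary real function of the number of positive inputs. So it may
contain threshold gates of unbounded fan-in with arbitrary real weights, gates which test the sign of
arithmetic formulas, and arbitrary symmetric gates, nested in any way. It accepts if its value is
positive. Its size is the number of leaves (constants are free) plus the number of wires which lead to
gates `sym`. In a branching program (`Program`) every inner node tests whether a real formula accepts;
its size is the number of inner nodes plus the sizes of all these formulas. A formula is a program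
with one inner node.

We show that random branching programs of size at most `s` with error probability at most `1 / 3` need
`n ^ 3 ≤ 2700 c w ^ 2 s`. Exhaustive search over the paths of length two is a program with one inner
node of size `2 n ^ 3 + 1` (for all weights), so this is optimal up to a constant factor.

Proof. We count the functions of the weights at `i` which arise when the other numbers are fixed
(Nechiporuk's method). Between the `r` leaves of a formula which see these weights there are `O (r)`
places at which other parts of the formula enter, and the function of the value below such a place is
affine or an affine function of a threshold test; so there are `O (r)` real parameters, and the number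
of sign patterns on a set of `n ^ O (1)` queries is `n ^ O (r)` by Warren's bound (in the form of
helper448); after a sign test the parameters are forgotten, so the bound does not depend on the
depth. The queries are those of helper697
(`Pool.Agent.TH697.Form.MinPlus`).
-/

set_option autoImplicit false

namespace Pool.Agent.Results.MP_885423_lc.RealPrograms

open Pool.Agent.TH697.Form (IsProb)
open Pool.Agent.TH697.Row (ApproximatesOn)
open Pool.Agent.TH697.Form.MinPlus (Item InRange shortcut)
open Pool.Agent.Y638.RF (Program exists_program)

theorem result :
    (∀ n c w : ℕ, 16 ≤ n → 1 ≤ c → 1 ≤ w →
      ∀ (Ω : Type) [Fintype Ω] (μ : Ω → ℝ), IsProb μ →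
        ∀ (s : ℕ) (B : Ω → Program (Option (Fin n)) (Item n) w (n ^ c) s),
          ApproximatesOn μ (fun ω => (B ω).eval) (InRange n (n + 1)) (shortcut n) →
          (n : ℝ) ^ 3 ≤ 2700 * c * w ^ 2 * s) ∧
    (∀ n w q : ℕ, ∃ B : Program (Option (Fin n)) (Item n) w q (2 * n ^ 3 + 1),
      B.nodes = 1 ∧ ∀ x, B.eval x = shortcut n x) := by
  refine ⟨fun _ _ _ hn hc hw _ _ μ hμ s B hB =>
    Pool.Agent.Y638.RF.MinPlus.program_bound hn hc hw μ hμ s B hB, fun n w q => ?_⟩
  obtain ⟨F, h1, h2⟩ := Pool.Agent.Y638.RF.MinPlus.upper n w q
  obtain ⟨B, h3, h4⟩ := exists_program F (2 * n ^ 3 + 1) (by omega)
  exact ⟨B, h3, fun x => (h4 x).trans (h2 x)⟩

end Pool.Agent.Results.MP_885423_lc.RealPrograms
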