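import Pool.Agent.Y631.ApB

/-!
# All-pairs shortest paths: reads times treewidth

Circuits (`Net`) with words of `b` bits: a gate computes an arbitrary function of any number of
words, there is no bound on the number of the gates or on the number of the gates which use a word.
The inputs are the entries of the weight matrix of a directed graph with `N` vertices (one word for
each entry), the outputs are words which represent the distances. The coding of the weights and of
the distances by words is arbitrary, and the circuits may be random. Only two parameters count: the
number `r` of the wires from inputs to gates (the reads; at most the size), and the treewidth `t` of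
the graph of the gates (the wires between gates are its edges, the inputs are deleted).

If for every graph all of whose edges have weight one a random circuit computes all distances with
probability more than `1/2`, then `(r + N ^ 2) (b (t + 1) + log N) > N ^ 4 / (c (log N) ^ 10)`.

So circuits of treewidth `N ^ (1 + o (1))` with words of `N ^ o (1)` bits have `N ^ (3 - o (1))` reads:
the APSP hypothesis holds for (non-uniform, randomised) algorithms whose graph of computation steps
is such a circuit. For treewidth `N ^ (2 - ε)` still `N ^ (2 + ε - o (1))` reads are necessary.
Treewidth is more permissive than memory: if every wire joins gates at distance at most `t` in the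
order of evaluation (so that `t` words of memory suffice) then the treewidth is at most `t`; but, for
instance, two chains of gates, where the second uses the values of the first in reversed order, have
treewidth two, although all values of the first chain have to be stored.

The hard graphs, and for these the bound for the probability that many pairs are disconnected if few
entries are given, are those of the starting results `SpaceBoundedAPSP` and `StackTradeoff` for
programs with `S` bits of memory (with a stack), where `N ^ 4 < c T S (log N) ^ 10`. What is new is the
model: the memory is replaced by the treewidth of the circuit. Starting result `LinearPrograms` and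
others of this problem are about other models (linear or real operations, without a limit of memory).

Proof. The tree decomposition is cut into `O (r / w + 1)` pieces such that each piece has at most two
boundary bags and at most `w` reads (`Pool.Agent.Y631.Tr.region2`). If all distances are right, then in
some piece many outputs say that there is no path. For fixed values of the `2 (t + 1)` boundary words
and fixed values of the entries that are read in the piece these outputs are fixed, so this is right
with tiny probability, and there are only `2 ^ (2 b (t + 1))` values of the boundary words.
-/

set_option autoImplicit false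

namespace Pool.Agent.Results.MP_885423_lc.TreewidthTimesReads

open Pool.Agent.Y631.Tr

/-- The total weight of the walk with the given list of vertices. -/
def walkWeight {N : ℕ} (w : Fin N × Fin N → ℕ∞) : List (Fin N) → ℕ∞
  | [] => 0
  | [_] => 0
  | a :: b :: l => w (a, b) + walkWeight w (b :: l)

/-- The distance from `u` to `v`: the minimal total weight of a walk from `u` to `v`. -/
noncomputable def dist {N : ℕ} (w : Fin N × Fin N → ℕ∞) (u v : Fin N) : ℕ∞ :=
  ⨅ l : {l : List (Fin N) // l.head? = some u ∧ l.getLast? = some v}, walkWeight w l.1

/-- The circuit computes all distances of the graph with the weights `w`; the weights are encoded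
by `inp`, and the outputs are decoded by `dec`. -/
def Right {α : Type} {N : ℕ} (C : Net (Fin N × Fin N) (Fin N × Fin N) α) (inp : ℕ∞ → α)
    (dec : α → ℕ∞) (w : Fin N × Fin N → ℕ∞) : Prop :=
  ∃ y, C.Computes (fun p => inp (w p)) y ∧ ∀ o, dec (y o) = dist w o.1 o.2

theorem walkWeight_eq {N : ℕ} (w : Fin N × Fin N → ℕ∞) :
    ∀ l, Pool.Agent.H537R2.Apsp.walkWeight w l = walkWeight w l
  | [] => rfl
  | [_] => rfl
  | a :: b :: l => by
    rw [Pool.Agent.H537R2.Apsp.walkWeight, walkWeight, walkWeight_eq w (b :: l)]

theorem right_iff {α : Type} {N : ℕ} (C : Net (Fin N × Fin N) (Fin N × Fin N) α) (inp : ℕ∞ → α)
    (dec : α → ℕ∞) (w : Fin N × Fin N → ℕ∞) : Right C inp dec w ↔ NetDist C inp dec w := by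
  have h : ∀ o, dist w o.1 o.2 = Pool.Agent.W896.MO.dists w o := by
    intro o
    unfold Pool.Agent.W896.MO.dists Pool.Agent.H537R2.Apsp.dist dist
    congr 1
    funext l
    exact (walkWeight_eq w l.1).symm
  unfold Right NetDist
  simp only [h]

/-- There is a constant `c` such that for all large `N`, all `t`, `b` and `r`: let `C i`, for a
uniformly random `i : R`, be circuits with at most `2 ^ b` possible words, with at most `r` reads and
of treewidth at most `t`. If for every directed graph with `N` vertices all of whose edges have
weight `1` (`⊤`: no edge) the random circuit computes all distances with probability more than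
`1/2`, then `N ^ 4 < c (r + N ^ 2) (b (t + 1) + log₂ N) (log₂ N) ^ 10`. -/
theorem result : ∃ c : ℕ, ∀ᶠ N : ℕ in Filter.atTop, ∀ (t b r : ℕ)
    (R : Type) [Fintype R] (α : R → Type) [∀ i, Fintype (α i)]
    (C : (i : R) → Net (Fin N × Fin N) (Fin N × Fin N) (α i)) (inp : (i : R) → ℕ∞ → α i)
    (dec : (i : R) → α i → ℕ∞),
      (∀ i, Fintype.card (α i) ≤ 2 ^ b ∧ (C i).TreewidthLE t ∧ (C i).reads ≤ r) →
      (∀ w : Fin N × Fin N → ℕ∞, (∀ p, w p = 1 ∨ w p = ⊤) →
        Nat.card R < 2 * Nat.card {i : R // Right (C i) (inp i) (dec i) w}) →
      N ^ 4 < c * ((r + N ^ 2) * (b * (t + 1) + Nat.log 2 N) * (Nat.log 2 N) ^ 10) := by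
  simp only [right_iff]
  exact apsp_circuits

end Pool.Agent.Results.MP_885423_lc.TreewidthTimesReads
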