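import Mathlib
import Pool.Agent.Y638.WF.MinPlus

/-!
# Shortest paths: branching programs which test arithmetic (min, max) formulas over machine words

A directed graph has three layers of `n` vertices and the edge weights `A i k` (first to second
layer), `B k j` (second to third layer) and `C i j` (first to third layer), integers in
`{1, …, n + 1}`. Is some edge `i → j` longer than a path `i → k → j`? The items of the input are the
weights of all edges at `i`, for each vertex `i` of the first layer, and the matrix `B`.

A formula (`Fml`) is built from constants, arbitrary integral functions of one item, and arbitrary
integral functions of `w` words of length `c log₂ n`, where each word is an arbitrary function of one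
item, by sums, products, maxima, minima, sign tests `pos` (with the values `0`, `1`), and gates `sym`
of any fan-in whose value is an arbitrary function of the number of positive inputs; the numbers which
occur in the computation are machine words: the absolute values of all subformulas are at most
`n ^ v` (for valid inputs). It accepts if its value is positive. Its size is the number of leaves
(constants are free) plus the number of wires which lead to gates `sym`. In a branching program
(`Program`) every inner node tests whether a formula accepts; its size is the number of inner nodes
plus the sizes of all these formulas. A formula is a program with one inner node.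

We show that random branching programs of size at most `s` with error probability at most `1 / 3` need
`n ^ 3 ≤ 1000 w (v + c w) s`. Exhaustive search over the paths of length two, i.e. the maximum of the
numbers `C i j - A i k - B k j`, is a program with one inner node of size `2 n ^ 3 + 1` whose numbers
are at most `2 n + 1`, so this is optimal up to a constant factor.

Proof. We count the functions of the weights at `i` which arise when the other numbers are fixed
(Nechiporuk's method). Between two leaves which see these weights, the other parts of the formula act
by a composition of maps `x + c`, `c x`, `max x c`, `min x c`, and of functions of `[0 < x]`. Such a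
composition is a clamped affine function `max lo (min hi (a x + b))` or a function of a threshold
test; since its values on the relevant numbers are machine words it is given by six words (`a` is
small, too, unless the function is almost a threshold test). So a program which reads the item `r`
times has at most `n ^ O (v r)` subfunctions. The queries are those of helper697
(`Pool.Agent.TH697.Form.MinPlus`).
-/

set_option autoImplicit false

namespace Pool.Agent.Results.MP_885423_lc.WordPrograms

open Pool.Agent.TH697.Form (IsProb)
open Pool.Agent.TH697.Row (ApproximatesOn)
open Pool.Agent.TH697.Form.MinPlus (Item InRange shortcut)
open Pool.Agent.Y638.WF (Program exists_program)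

theorem result :
    (∀ n c w v : ℕ, 16 ≤ n → 1 ≤ c → 1 ≤ w → 1 ≤ v →
      ∀ (Ω : Type) [Fintype Ω] (μ : Ω → ℝ), IsProb μ →
        ∀ (s : ℕ)
          (B : Ω → Program (Option (Fin n)) (Item n) w (n ^ c) (n ^ v) (InRange n (n + 1)) s),
          ApproximatesOn μ (fun ω => (B ω).eval) (InRange n (n + 1)) (shortcut n) →
          (n : ℝ) ^ 3 ≤ 1000 * w * (v + c * w) * s) ∧
    (∀ n w q V : ℕ, 2 * n + 1 ≤ V →
      ∃ B : Program (Option (Fin n)) (Item n) w q V (InRange n (n + 1)) (2 * n ^ 3 + 1),
        B.nodes = 1 ∧ ∀ x, B.eval x = shortcut n x) := by
  refine ⟨fun _ _ _ _ hn hc hw hv _ _ μ hμ s B hB =>
    Pool.Agent.Y638.WF.MinPlus.bound hn hc hw hv μ hμ s B hB, fun n w q V hV => ?_⟩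
  obtain ⟨F, h1, h2, h3⟩ := Pool.Agent.Y638.WF.MinPlus.upper n w q V hV
  obtain ⟨B, h4, h5⟩ := exists_program F h2 (2 * n ^ 3 + 1) (by omega)
  exact ⟨B, h4, fun x => (h5 x).trans (h3 x)⟩

end Pool.Agent.Results.MP_885423_lc.WordPrograms
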